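import Pool.Agent.W845.HC.Base

set_option autoImplicit false
open scoped Classical
open Filter Topology
open scoped BigOperators

/-!
# HC-HIGH: upper side, final assembly
-/

namespace Pool.Agent.W310.HC

open Pool.Agent.W845.PM Pool.Agent.W845.HC

lemma dft_le (hL : S_LAM) (n : ℕ) (G : SimpleGraph (Fin n)) :
    (dft G : ℝ) ≤ (n : ℝ) - lam G := by
  have h1 := hL.2.2.2.1 (Fin n) G
  rw [Fintype.card_fin] at h1
  have h2 : lam G ≤ n := by omega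
  have h3 : (lam G : ℝ) ≤ n := by exact_mod_cast h2
  unfold dft
  split_ifs
  · rw [Nat.cast_zero]
    linarith
  · rw [Fintype.card_fin, Nat.cast_sub h2]

lemma exp_quarter : Real.exp (1 / 4) ≤ 9 / 7 := by
  by_contra h
  push Not at h
  have h1 : (9 / 7 : ℝ) ^ 4 < Real.exp (1 / 4) ^ 4 := pow_lt_pow_left₀ h (by norm_num) (by norm_num)
  rw [← Real.exp_nat_mul] at h1
  have h2 : ((4 : ℕ) : ℝ) * (1 / 4) = 1 := by norm_num
  rw [h2] at h1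
  have h3 := Real.exp_one_lt_d9
  norm_num at h1
  linarith

lemma small {T : ℕ} {x : ℝ} (hx : x ≤ T / 4) :
    (7 / 10 : ℝ) ^ T * Real.exp x ≤ (9 / 10 : ℝ) ^ T := by
  have h1 : Real.exp x ≤ (9 / 7 : ℝ) ^ T := by
    calc Real.exp x ≤ Real.exp (T * (1 / 4)) := Real.exp_le_exp.2 (by linarith)
      _ = Real.exp (1 / 4) ^ T := Real.exp_nat_mul _ _
      _ ≤ (9 / 7 : ℝ) ^ T := pow_le_pow_left₀ (Real.exp_pos _).le exp_quarter _
  calc (7 / 10 : ℝ) ^ T * Real.exp x ≤ (7 / 10 : ℝ) ^ T * (9 / 7 : ℝ) ^ T :=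
        mul_le_mul_of_nonneg_left h1 (by positivity)
    _ = (9 / 10 : ℝ) ^ T := by
        rw [← mul_pow]
        norm_num

lemma mindeg {n : ℕ} {d : ℕ} (G G' : SimpleGraph (Fin n)) (h : G ≤ G') (hd : d ≤ G.minDegree) :
    d ≤ G'.minDegree := hd.trans (SimpleGraph.minDegree_le_minDegree h)

lemma expPart {a n d q1 : ℝ} (ha : 0 < a) (hn : 0 < n) (e3 : 10 ≤ a * n) (had : a * n ≤ d)
    (hq1d : q1 = 12 / (a ^ 2 * n ^ 2)) :
    0 ≤ q1 ∧ q1 ≤ 1 ∧ Real.exp (-(q1 * (d - 1) ^ 2 / 8)) ≤ 1 / 2 := by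
  have han0 : 0 < a ^ 2 * n ^ 2 := by positivity
  have han : 100 ≤ a ^ 2 * n ^ 2 := by
    have : (10 : ℝ) ^ 2 ≤ (a * n) ^ 2 := pow_le_pow_left₀ (by norm_num) e3 2
    rw [mul_pow] at this
    linarith
  have hq10 : 0 ≤ q1 := by rw [hq1d]; positivity
  refine ⟨hq10, ?_, ?_⟩
  · rw [hq1d, div_le_one han0]
    linarith
  · have f1 : 9 / 10 * (a * n) ≤ d - 1 := by linarith
    have f2 : (9 / 10 * (a * n)) ^ 2 ≤ (d - 1) ^ 2 :=
      pow_le_pow_left₀ (by positivity) f1 2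
    have f3 : 1 ≤ q1 * (d - 1) ^ 2 / 8 := by
      have f4 : q1 * (a ^ 2 * n ^ 2) = 12 := by
        rw [hq1d, div_mul_cancel₀]
        exact han0.ne'
      have f5 : q1 * (9 / 10 * (a * n)) ^ 2 ≤ q1 * (d - 1) ^ 2 :=
        mul_le_mul_of_nonneg_left f2 hq10
      have f6 : q1 * (9 / 10 * (a * n)) ^ 2 = 81 / 100 * (q1 * (a ^ 2 * n ^ 2)) := by ring
      rw [f6, f4] at f5
      linarith
    have f7 : Real.exp (-(q1 * (d - 1) ^ 2 / 8)) ≤ Real.exp (-1) :=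
      Real.exp_le_exp.2 (by linarith)
    refine f7.trans ?_
    have := Real.exp_neg_one_lt_d9
    linarith

lemma tqPart {a n q1 ε c0 K0 p T : ℝ} (ha : 0 < a) (hn : 0 < n) (hε : 0 < ε)
    (hq1d : q1 = 12 / (a ^ 2 * n ^ 2)) (hK0 : K0 = ε * c0 * a ^ 2) (hTu : T ≤ K0 * n / 24)
    (hpl : c0 / n ≤ p) : T * q1 ≤ ε / 2 * p := by
  have hq10 : 0 ≤ q1 := by rw [hq1d]; positivity
  have e : K0 * n / 24 * q1 = ε / 2 * (c0 / n) := by
    rw [hq1d, hK0]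
    have h1 : a ≠ 0 := ha.ne'
    have h2 : n ≠ 0 := hn.ne'
    field_simp
    ring
  calc T * q1 ≤ K0 * n / 24 * q1 := mul_le_mul_of_nonneg_right hTu hq10
    _ = ε / 2 * (c0 / n) := e
    _ ≤ ε / 2 * p := mul_le_mul_of_nonneg_left hpl (by linarith)

lemma core (hL : S_LAM) (hMer : S_MERGE) {n d T0 T : ℕ} {κ δ q1 qT p1 : ℝ}
    (H : SimpleGraph (Fin n)) (e4' : 3 ≤ n) (hd1 : 1 ≤ d) (hq10 : 0 ≤ q1) (hq11 : q1 ≤ 1)
    (hexp : Real.exp (-(q1 * ((d : ℝ) - 1) ^ 2 / 8)) ≤ 1 / 2) (hH : d ≤ H.minDegree)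
    (hqT : qT = 1 - (1 - q1) ^ T) (hqT0 : 0 ≤ qT) (hqT1 : qT ≤ 1) (hκT : κ * n ≤ T / 4)
    (hT0T : T0 ≤ T) (hT0 : (9 / 10 : ℝ) ^ T0 ≤ δ / 2) (hp10 : 0 ≤ p1) (hp11 : p1 ≤ 1)
    (hδ : 0 < δ)
    (hG : EG n p1 (fun R => if (1 - κ) * n ≤ (lam (H ⊔ R) : ℝ) then (0 : ℝ) else 1) ≤ δ / 2) :
    1 - δ ≤ EG n p1 (fun R => EG n qT (fun G' =>
      if (H ⊔ (R ⊔ G')).IsHamiltonian then (1 : ℝ) else 0)) := by
  have hone : ∀ r : ℝ, EG n r (fun _ => (1 : ℝ)) = 1 := fun r => (oneT n r).1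
  have hpt : ∀ R : SimpleGraph (Fin n),
      1 - ((if (1 - κ) * n ≤ (lam (H ⊔ R) : ℝ) then (0 : ℝ) else 1) + δ / 2) ≤
        EG n qT (fun G' => if (H ⊔ (R ⊔ G')).IsHamiltonian then (1 : ℝ) else 0) := by
    intro R
    have g1 : EG n qT (fun G' => if (H ⊔ (R ⊔ G')).IsHamiltonian then (1 : ℝ) else 0) =
        1 - EG n qT (fun G' => if ((H ⊔ R) ⊔ G').IsHamiltonian then (0 : ℝ) else 1) := by
      have hs := EG_sub n qT (fun _ => (1 : ℝ))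
        (fun G' => if ((H ⊔ R) ⊔ G').IsHamiltonian then (0 : ℝ) else 1)
      rw [hone] at hs
      rw [← hs]
      congr 1
      funext G'
      rw [sup_assoc]
      split_ifs <;> norm_num
    rw [g1]
    by_cases hl : (1 - κ) * n ≤ (lam (H ⊔ R) : ℝ)
    · rw [if_pos hl]
      have g2 := hMer n d q1 e4' hd1 hq10 hq11 hexp T (H ⊔ R) (mindeg H (H ⊔ R) le_sup_left hH)
      rw [← hqT] at g2
      have g3 : (dft (H ⊔ R) : ℝ) ≤ T / 4 := by
        have := dft_le hL n (H ⊔ R)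
        linarith
      have g4 := small g3
      have g5 : (9 / 10 : ℝ) ^ T ≤ (9 / 10 : ℝ) ^ T0 :=
        pow_le_pow_of_le_one (by norm_num) (by norm_num) hT0T
      linarith
    · rw [if_neg hl]
      have g2 : EG n qT (fun G' => if ((H ⊔ R) ⊔ G').IsHamiltonian then (0 : ℝ) else 1) ≤
          EG n qT (fun _ => (1 : ℝ)) := EG_mono hqT0 hqT1 (fun G' => by split_ifs <;> norm_num)
      rw [hone] at g2
      linarith
  have hfin := EG_mono hp10 hp11 hpt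
  refine le_trans ?_ hfin
  have g6 : EG n p1 (fun R => 1 - ((if (1 - κ) * n ≤ (lam (H ⊔ R) : ℝ) then (0 : ℝ) else 1) +
      δ / 2)) = 1 - (EG n p1 (fun R => if (1 - κ) * n ≤ (lam (H ⊔ R) : ℝ) then (0 : ℝ) else 1) +
        δ / 2) := by
    rw [EG_sub, EG_add, hone, EG_const oneT]
  rw [g6]
  linarith

theorem high : S_LAM → S_SUP → S_MON → S_PST1 → S_PST2 → S_G1 → S_MERGE → S_HIGH := by
  intro hL hSup hMon hP1 hP2 hG1 hMer a b ε δ ha hb hε hε1 hδ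
  obtain ⟨c0, C0, N1, hc0, hC0, h1⟩ := hP1 a b ha hb
  obtain ⟨η, N2, hη, h2⟩ := hP2 a b (ε / 2) ha hb (by linarith) (by linarith)
  obtain ⟨K0, hK0⟩ : ∃ K0 : ℝ, K0 = ε * c0 * a ^ 2 := ⟨_, rfl⟩
  have hK0p : 0 < K0 := by rw [hK0]; positivity
  obtain ⟨κ, hκ⟩ : ∃ κ : ℝ, κ = K0 / 200 := ⟨_, rfl⟩
  have hκ0 : 0 < κ := by rw [hκ]; positivity
  obtain ⟨N3, h3⟩ := hG1 a κ (η / 2) (2 * C0) (δ / 2) ha hκ0 (by positivity) (by positivity)
    (by positivity)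
  obtain ⟨T0, hT0⟩ : ∃ T0 : ℕ, (9 / 10 : ℝ) ^ T0 ≤ δ / 2 := by
    obtain ⟨T0, h⟩ := exists_pow_lt_of_lt_one (show (0 : ℝ) < δ / 2 by linarith)
      (show (9 / 10 : ℝ) < 1 by norm_num)
    exact ⟨T0, h.le⟩
  obtain ⟨B, hB⟩ : ∃ B : ℝ, B = 50 / K0 + 24 * (T0 + 1) / K0 + 10 / a + 3 := ⟨_, rfl⟩
  refine ⟨max (max N1 N2) (max N3 ⌈B⌉₊), ?_⟩
  intro n d p q H hn had hdb hcrit hq0 hq1 hpq hH
  have a12 := (max_le_iff.1 hn).1
  have a34 := (max_le_iff.1 hn).2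
  have a1 := (max_le_iff.1 a12).1
  have a2 := (max_le_iff.1 a12).2
  have a3 := (max_le_iff.1 a34).1
  have a4 : B ≤ (n : ℝ) := Nat.ceil_le.1 (max_le_iff.1 a34).2
  have b1 : 0 ≤ 50 / K0 := by positivity
  have b2 : 0 ≤ 24 * ((T0 : ℝ) + 1) / K0 := by positivity
  have b3 : 0 ≤ 10 / a := by positivity
  have e1 : 50 ≤ K0 * n := by
    have : 50 / K0 ≤ n := by linarith
    rw [div_le_iff₀ hK0p] at this
    linarith
  have e2 : 24 * ((T0 : ℝ) + 1) ≤ K0 * n := by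
    have : 24 * ((T0 : ℝ) + 1) / K0 ≤ n := by linarith
    rw [div_le_iff₀ hK0p] at this
    linarith
  have e3 : 10 ≤ a * n := by
    have : 10 / a ≤ n := by linarith
    rw [div_le_iff₀ ha] at this
    linarith
  have e4 : (3 : ℝ) ≤ n := by linarith
  have e4' : 3 ≤ n := by exact_mod_cast e4
  have hn0 : (0 : ℝ) < n := by linarith
  have hd10 : (10 : ℝ) ≤ d := e3.trans had
  have hd1 : 1 ≤ d := by
    have : (1 : ℝ) ≤ d := by linarith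
    exact_mod_cast this
  have h2d : 2 * d ≤ n := by
    have : (2 : ℝ) * d ≤ n := by nlinarith
    exact_mod_cast this
  obtain ⟨hpl, hpu⟩ := h1 n d p a1 had hdb hcrit
  have hp0 : 0 ≤ p := hcrit.1
  have hg := (h2 n d p a2 had hdb hcrit).1
  obtain ⟨p1, hp1⟩ : ∃ p1 : ℝ, p1 = (1 + ε / 2) * p := ⟨_, rfl⟩
  rw [← hp1] at hg
  have hp10 : 0 ≤ p1 := by rw [hp1]; positivity
  have hp1q : p1 ≤ q := by
    refine le_trans ?_ hpq
    rw [hp1]
    nlinarith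
  have hp11 : p1 ≤ 1 := hp1q.trans hq1
  have hp1C : p1 ≤ 2 * C0 / n := by
    have : p1 ≤ 2 * p := by rw [hp1]; nlinarith
    calc p1 ≤ 2 * p := this
      _ ≤ 2 * (C0 / n) := by linarith
      _ = 2 * C0 / n := by ring
  have hG := h3 n d p1 H a3 had h2d hp10 hp11 hp1C (by linarith) hH
  obtain ⟨q1, hq1d⟩ : ∃ q1 : ℝ, q1 = 12 / (a ^ 2 * n ^ 2) := ⟨_, rfl⟩
  obtain ⟨hq10, hq11, hexp⟩ := expPart (d := (d : ℝ)) ha hn0 e3 had hq1d
  obtain ⟨T, hT⟩ : ∃ T : ℕ, T = ⌊K0 * n / 24⌋₊ := ⟨_, rfl⟩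
  have hTu : (T : ℝ) ≤ K0 * n / 24 := by
    rw [hT]
    exact Nat.floor_le (by positivity)
  have hTl : K0 * n / 24 < T + 1 := by
    rw [hT]
    exact Nat.lt_floor_add_one _
  have hκT : κ * n ≤ T / 4 := by
    rw [hκ]
    linarith
  have hT0T : T0 ≤ T := by
    have : (T0 : ℝ) < T + 1 := by linarith
    have : T0 < T + 1 := by exact_mod_cast this
    omega
  obtain ⟨qT, hqT⟩ : ∃ qT : ℝ, qT = 1 - (1 - q1) ^ T := ⟨_, rfl⟩
  have hqT0 : 0 ≤ qT := by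
    rw [hqT, sub_nonneg]
    exact pow_le_one₀ (by linarith) (by linarith)
  have hqT1 : qT ≤ 1 := by
    rw [hqT]
    have := pow_nonneg (show (0 : ℝ) ≤ 1 - q1 by linarith) T
    linarith
  have hqTle : qT ≤ T * q1 := by
    have := one_add_mul_le_pow (show (-2 : ℝ) ≤ -q1 by linarith) T
    rw [← sub_eq_add_neg] at this
    rw [hqT]
    linarith
  have hTq : (T : ℝ) * q1 ≤ ε / 2 * p := tqPart ha hn0 hε hq1d hK0 hTu hpl
  have htot : p1 + qT - p1 * qT ≤ q := by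
    have : 0 ≤ p1 * qT := mul_nonneg hp10 hqT0
    have h5 : p1 + qT ≤ (1 + ε) * p := by
      have h6 : (1 + ε / 2) * p + ε / 2 * p = (1 + ε) * p := by ring
      rw [hp1, ← h6]
      exact add_le_add le_rfl (hqTle.trans hTq)
    linarith
  have htot0 : 0 ≤ p1 + qT - p1 * qT := by
    have h5 : 0 ≤ qT * (1 - p1) := mul_nonneg hqT0 (sub_nonneg.2 hp11)
    have h6 : p1 + qT - p1 * qT = p1 + qT * (1 - p1) := by ring
    rw [h6]
    exact add_nonneg hp10 h5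
  -- monotonicity
  have hmono := hMon n (p1 + qT - p1 * qT) q
    (fun R => if (H ⊔ R).IsHamiltonian then (1 : ℝ) else 0) htot0 htot hq1 (by
      intro G G' hGG
      by_cases hham : (H ⊔ G).IsHamiltonian
      · have : (H ⊔ G').IsHamiltonian := hham.mono (sup_le_sup_left hGG H)
        rw [if_pos hham, if_pos this]
      · rw [if_neg hham]
        split_ifs <;> norm_num)
  refine le_trans ?_ hmono
  rw [← hSup]
  exact core hL hMer H e4' hd1 hq10 hq11 hexp hH hqT hqT0 hqT1 hκT hT0T hT0 hp10 hp11 hδ hG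

end Pool.Agent.W310.HC
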